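import Pool.Agent.TH415.UL.Mom
import Pool.Agent.H442R2.EHI.PntErr

set_option autoImplicit false
set_option maxHeartbeats 4000000

/-! # Base facts on the primes `a n + z`, `z < a`, for small `n` -/

namespace Pool.Agent.J6H28.UT

open Finset Pool.Agent.H262R2.UK TH415.UL
open Pool.Agent.H646 Pool.Agent.H646.Sv3M Pool.Agent.H646.TuplesM
open Pool.Agent.H646.MomentM (rat_moment)

open scoped Classical

variable {k : ℕ}

/-- the number of `z` with `a n + z` prime -/
noncomputable def PP (a n : ℕ) : ℕ := #((BB a).filter (fun z => (a * n + z).Prime))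

theorem PP_eq (a n : ℕ) (ha : 2 ≤ a) (hn : 1 ≤ n) :
    #((Icc 1 (a * n + a)).filter (fun p : ℕ => p.Prime)) =
      #((Icc 1 (a * n)).filter (fun p : ℕ => p.Prime)) + PP a n := by
  have h1 : (Icc 1 (a * n + a)).filter (fun p : ℕ => p.Prime) =
      (Icc 1 (a * n)).filter (fun p : ℕ => p.Prime) ∪
        ((BB a).filter (fun z => (a * n + z).Prime)).image (fun z => a * n + z) := by
    have haan : a ≤ a * n := Nat.le_mul_of_pos_right a hn
    ext p
    simp only [mem_filter, mem_Icc, mem_union, mem_image, BB, mem_Ico]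
    constructor
    · rintro ⟨⟨h1, h2⟩, hp⟩
      by_cases h : p ≤ a * n
      · exact Or.inl ⟨⟨h1, h⟩, hp⟩
      · right
        have hne : p ≠ a * n + a := by
          intro h
          have h4 : p = a * (n + 1) := by rw [h]; ring
          rw [h4] at hp
          exact Nat.not_prime_mul (by omega) (by omega) hp
        have e : a * n + (p - a * n) = p := by omega
        have hcop : a.Coprime (p - a * n) := by
          have h5 : a.Coprime p := by
            rw [Nat.coprime_comm, Nat.Prime.coprime_iff_not_dvd hp]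
            intro h6
            have := Nat.le_of_dvd (by omega) h6
            omega
          have h7 : a.Coprime (a * n + (p - a * n)) := by rw [e]; exact h5
          rwa [Nat.coprime_mul_left_add_right] at h7
        exact ⟨p - a * n, ⟨⟨⟨by omega, by omega⟩, hcop⟩, by rw [e]; exact hp⟩, e⟩
    · rintro (⟨⟨h1, h2⟩, hp⟩ | ⟨z, ⟨⟨⟨hz1, hz2⟩, hc⟩, hp⟩, rfl⟩)
      · exact ⟨⟨h1, by omega⟩, hp⟩
      · exact ⟨⟨by omega, by omega⟩, hp⟩
  rw [h1, card_union_of_disjoint, card_image_of_injective _ (fun x y h => by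
    simpa using h)]
  · rfl
  · rw [disjoint_left]
    intro p hp hp'
    rw [mem_filter, mem_Icc] at hp
    rw [mem_image] at hp'
    obtain ⟨z, hz, rfl⟩ := hp'
    rw [mem_filter, BB, mem_filter, mem_Ico] at hz
    omega

theorem lis_sub (x y : ℕ) (hx : 1 ≤ x) (hxy : x ≤ y) :
    Pool.Agent.H442R2.EHI.lis y - Pool.Agent.H442R2.EHI.lis x = ∑ m ∈ Ioc x y, 1 / Real.log m := by
  unfold Pool.Agent.H442R2.EHI.lis
  have : Icc 2 y = Icc 2 x ∪ Ioc x y := by
    ext m; simp only [mem_union, mem_Icc, mem_Ioc]; omega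
  rw [this, sum_union]
  · ring
  · rw [disjoint_left]
    intro m hm hm'
    rw [mem_Icc] at hm
    rw [mem_Ioc] at hm'
    omega

theorem ev_nat {p : ℝ → Prop} (h : ∀ᶠ x : ℝ in Filter.atTop, p x) : ∃ a₀ : ℕ, ∀ a : ℕ, a₀ ≤ a → p a := by
  have := (tendsto_natCast_atTop_atTop (R := ℝ)).eventually h
  exact Filter.eventually_atTop.1 this

/-- the prime number theorem for the short intervals `(a n, a n + a)`, `n ≤ (log a) ^ B` -/
theorem asymp (B : ℕ) (ε : ℝ) (hε : 0 < ε) : ∃ a₀ : ℕ, 2 ≤ a₀ ∧ ∀ a : ℕ, a₀ ≤ a → ∀ n : ℕ, 1 ≤ n →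
    (n : ℝ) ≤ Real.log a ^ B → |(PP a n : ℝ) - a / Real.log a| ≤ ε * (a / Real.log a) := by
  obtain ⟨C, hC⟩ := Pool.Agent.H442R2.EHI.pnt_err (B + 2)
  have e1 : ∀ᶠ L : ℝ in Filter.atTop, Real.log 2 + B * Real.log L ≤ ε / 2 * L := by
    have h1 : (fun L : ℝ => Real.log 2 + B * Real.log L) =o[Filter.atTop] (fun L : ℝ => L) := by
      apply Asymptotics.IsLittleO.add
      · exact Asymptotics.isLittleO_const_id_atTop _
      · exact (Real.isLittleO_log_id_atTop).const_mul_left _
    have h2 := h1.bound (show 0 < ε / 2 by positivity)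
    filter_upwards [h2, Filter.eventually_ge_atTop 0] with L hL hL0
    rw [Real.norm_eq_abs, Real.norm_eq_abs, abs_of_nonneg hL0] at hL
    exact (le_abs_self _).trans hL
  have e2 : ∀ᶠ L : ℝ in Filter.atTop, 4 * |C| ≤ ε / 2 * L :=
    (Filter.tendsto_id.const_mul_atTop (show 0 < ε / 2 by positivity)).eventually_ge_atTop _
  have e3 : ∀ᶠ L : ℝ in Filter.atTop, 1 ≤ L := Filter.eventually_ge_atTop 1
  have e4 := Real.tendsto_log_atTop.eventually (e1.and (e2.and e3))
  obtain ⟨a₀, ha₀⟩ := ev_nat e4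
  refine ⟨max a₀ 2, le_max_right _ _, ?_⟩
  intro a ha n hn hnB
  obtain ⟨f1, f2, f3⟩ := ha₀ a ((le_max_left _ _).trans ha)
  have ha2 : 2 ≤ a := (le_max_right _ _).trans ha
  have ha0 : (0 : ℝ) < a := by positivity
  set L := Real.log a with hL
  have hL0 : 0 < L := by linarith
  have hn1 : (1 : ℝ) ≤ n := by exact_mod_cast hn
  have haan : a ≤ a * n := Nat.le_mul_of_pos_right a hn
  have hcnt := PP_eq a n ha2 hn
  have h1 := hC (a * n + a) (by omega)
  have h2 := hC (a * n) (by omega)
  have hlis := lis_sub (a * n) (a * n + a) (by omega) (by omega)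
  have hcnt' : ((#((Icc 1 (a * n + a)).filter (fun p : ℕ => p.Prime)) : ℕ) : ℝ) =
      #((Icc 1 (a * n)).filter (fun p : ℕ => p.Prime)) + PP a n := by exact_mod_cast hcnt
  -- logarithms
  have hlog1 : L ≤ Real.log ((a * n : ℕ) : ℝ) := Real.log_le_log ha0 (by exact_mod_cast haan)
  have hlog2 : Real.log ((a * n + a : ℕ) : ℝ) ≤ (1 + ε / 2) * L := by
    have e5 : ((a * n + a : ℕ) : ℝ) = a * (n + 1) := by push_cast; ring
    rw [e5, Real.log_mul (by positivity) (by positivity)]
    have e6 : Real.log ((n : ℝ) + 1) ≤ Real.log 2 + B * Real.log L := by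
      rw [← Real.log_pow, ← Real.log_mul (by norm_num) (by positivity)]
      apply Real.log_le_log (by positivity)
      nlinarith
    linarith
  have hlog3 : L ≤ Real.log ((a * n + a : ℕ) : ℝ) := by
    apply Real.log_le_log ha0
    exact_mod_cast (by omega : a ≤ a * n + a)
  -- the sum of 1 / log
  have hup : ∑ m ∈ Ioc (a * n) (a * n + a), 1 / Real.log m ≤ a / L := by
    calc ∑ m ∈ Ioc (a * n) (a * n + a), 1 / Real.log m ≤ ∑ m ∈ Ioc (a * n) (a * n + a), 1 / L := by
          apply sum_le_sum
          intro m hm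
          rw [mem_Ioc] at hm
          apply one_div_le_one_div_of_le hL0
          refine hlog1.trans (Real.log_le_log (by exact_mod_cast (by omega : 0 < a * n)) ?_)
          exact_mod_cast hm.1.le
      _ = a / L := by
          rw [sum_const, Nat.card_Ioc, nsmul_eq_mul]
          have : a * n + a - a * n = a := by omega
          rw [this]
          ring
  have hlo : (1 - ε / 2) * (a / L) ≤ ∑ m ∈ Ioc (a * n) (a * n + a), 1 / Real.log m := by
    have h5 : (1 - ε / 2) * (a / L) ≤ a / ((1 + ε / 2) * L) := by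
      rw [le_div_iff₀ (by positivity)]
      have : (1 - ε / 2) * (a / L) * ((1 + ε / 2) * L) = (1 - (ε / 2) ^ 2) * a := by
        field_simp
        ring
      rw [this]
      nlinarith [sq_nonneg (ε / 2)]
    refine h5.trans ?_
    calc a / ((1 + ε / 2) * L) = ∑ m ∈ Ioc (a * n) (a * n + a), 1 / ((1 + ε / 2) * L) := by
          rw [sum_const, Nat.card_Ioc, nsmul_eq_mul]
          have : a * n + a - a * n = a := by omega
          rw [this]
          ring
      _ ≤ _ := by
          apply sum_le_sum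
          intro m hm
          rw [mem_Ioc] at hm
          have hm0 : 0 < Real.log m := by
            apply Real.log_pos
            exact_mod_cast (by omega : 1 < m)
          apply one_div_le_one_div_of_le hm0
          refine le_trans (Real.log_le_log (by exact_mod_cast (by omega : 0 < m)) ?_) hlog2
          exact_mod_cast hm.2
  -- errors
  have hLB : (0 : ℝ) < L ^ (B + 2) := by positivity
  have hn2 : ((a * n + a : ℕ) : ℝ) ≤ a * (2 * L ^ B) := by
    push_cast
    nlinarith
  have herr : ∀ y : ℕ, a ≤ y → y ≤ a * n + a →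
      C * y / Real.log y ^ (B + 2) ≤ 2 * |C| * a / L ^ 2 := by
    intro y hy1 hy2
    have hyr : (y : ℝ) ≤ a * (2 * L ^ B) := le_trans (by exact_mod_cast hy2) hn2
    have hy0 : (0 : ℝ) ≤ y := Nat.cast_nonneg y
    have hly : L ≤ Real.log y := Real.log_le_log ha0 (by exact_mod_cast hy1)
    calc C * y / Real.log y ^ (B + 2) ≤ |C| * y / Real.log y ^ (B + 2) := by
          have := le_abs_self C
          have h0 : 0 ≤ Real.log y := by linarith
          gcongr
      _ ≤ |C| * (a * (2 * L ^ B)) / L ^ (B + 2) := by gcongr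
      _ = 2 * |C| * a / L ^ 2 := by
          rw [pow_add]
          field_simp
  have g1 := herr (a * n + a) (by omega) le_rfl
  have g2 := herr (a * n) haan (by omega)
  have g3 : 4 * |C| * a / L ^ 2 ≤ ε / 2 * (a / L) := by
    have : 4 * |C| * a / L ^ 2 = 4 * |C| / L * (a / L) := by field_simp
    rw [this]
    apply mul_le_mul_of_nonneg_right _ (by positivity)
    rw [div_le_iff₀ hL0]
    exact f2
  have k1 := abs_le.1 (h1.trans g1)
  have k2 := abs_le.1 (h2.trans g2)
  have k3 : 4 * |C| * a / L ^ 2 = 2 * |C| * a / L ^ 2 + 2 * |C| * a / L ^ 2 := by ring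
  rw [abs_le]
  have k4 : ε * (a / L) = ε / 2 * (a / L) + ε / 2 * (a / L) := by ring
  have k5 : (1 - ε / 2) * (a / L) = a / L - ε / 2 * (a / L) := by ring
  obtain ⟨k11, k12⟩ := k1
  obtain ⟨k21, k22⟩ := k2
  constructor
  · linarith
  · have h0 : 0 ≤ ε / 2 * (a / L) := by positivity
    linarith

end Pool.Agent.J6H28.UT
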