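import Pool.Agent.J6H28.UT.Off
import Pool.Agent.TH415.UL.Main

set_option autoImplicit false
set_option maxHeartbeats 4000000

/-! # The number of systems with a prime point in a given set -/

namespace Pool.Agent.J6H28.UT

open Finset Pool.Agent.H262R2.UK TH415.UL

open scoped Classical

variable {k : ℕ}

/-- the number of the vectors `b` of reduced residues, with distinct forms, with a prime point in `T` -/
noncomputable def FF (a : Fin k → ℕ) (T : Finset ℕ) : ℕ :=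
  #((Om a).filter (fun b => Function.Injective (fun i => (a i, b i)) ∧ 0 < RT a T b))

/-- the expected number for one `n` -/
noncomputable def QQ (a : Fin k → ℕ) : ℝ := ∏ i, ((a i : ℝ) / Real.log (a i))

/-- the expected size of the least `n` -/
noncomputable def EE (a : Fin k → ℕ) : ℝ := ∏ i, ((a i).totient * Real.log (a i) / a i : ℝ)

theorem QQ_pos (a : Fin k → ℕ) (ha : ∀ i, 2 ≤ a i) : 0 < QQ a := by
  apply prod_pos
  intro i _
  have h1 : (2 : ℝ) ≤ a i := by exact_mod_cast ha i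
  have h2 : 0 < Real.log (a i) := Real.log_pos (by linarith)
  positivity

theorem EE_pos (a : Fin k → ℕ) (ha : ∀ i, 2 ≤ a i) : 0 < EE a := by
  apply prod_pos
  intro i _
  have h1 : (2 : ℝ) ≤ a i := by exact_mod_cast ha i
  have h2 : 0 < Real.log (a i) := Real.log_pos (by linarith)
  have h3 : (0 : ℝ) < (a i).totient := by
    exact_mod_cast Nat.totient_pos.2 (by have := ha i; omega)
  positivity

theorem QE (a : Fin k → ℕ) (ha : ∀ i, 2 ≤ a i) : QQ a * EE a = ∏ i, ((a i).totient : ℝ) := by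
  unfold QQ EE
  rw [← prod_mul_distrib]
  apply prod_congr rfl
  intro i _
  have h1 : (2 : ℝ) ≤ a i := by exact_mod_cast ha i
  have h2 : 0 < Real.log (a i) := Real.log_pos (by linarith)
  field_simp

theorem WE (a : Fin k → ℕ) (_ha : ∀ i, 2 ≤ a i) :
    ∏ i, ((a i : ℝ) / Real.log (a i) * (a i / ((a i).totient * Real.log (a i)))) = QQ a / EE a := by
  unfold QQ EE
  rw [prod_mul_distrib, div_eq_mul_inv, ← prod_inv_distrib]
  congr 1
  apply prod_congr rfl
  intro i _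
  rw [inv_div]

theorem EE_ge (a : Fin k → ℕ) (ha : ∀ i, 10 ≤ a i) : (1 / 2 : ℝ) ^ k ≤ EE a := by
  unfold EE
  calc (1 / 2 : ℝ) ^ k = ∏ _i : Fin k, (1 / 2 : ℝ) := by simp
    _ ≤ _ := prod_le_prod (fun i _ => by norm_num) (fun i _ => (phi_facts (a i) (ha i)).1)

theorem FF_le (a : Fin k → ℕ) (T : Finset ℕ) : FF a T ≤ ∑ b ∈ Om a, RT a T b := by
  unfold FF
  rw [card_eq_sum_ones]
  calc _ ≤ ∑ b ∈ (Om a).filter (fun b => Function.Injective (fun i => (a i, b i)) ∧ 0 < RT a T b),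
        RT a T b := by
        apply sum_le_sum
        intro b hb
        exact (mem_filter.1 hb).2.2
    _ ≤ _ := sum_le_sum_of_subset (filter_subset _ _)

/-- the vectors with equal forms -/
noncomputable def NI (a : Fin k → ℕ) (T : Finset ℕ) : ℕ :=
  #((Om a).filter (fun b => ¬ Function.Injective (fun i => (a i, b i)) ∧ 0 < RT a T b))

theorem card_pos_eq (a : Fin k → ℕ) (T : Finset ℕ) :
    #((Om a).filter (fun b => 0 < RT a T b)) ≤ FF a T + NI a T := by
  unfold FF NI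
  refine le_trans (card_le_card ?_) (card_union_le _ _)
  intro b hb
  rw [mem_filter] at hb
  rw [mem_union, mem_filter, mem_filter]
  by_cases h : Function.Injective (fun i => (a i, b i))
  · exact Or.inl ⟨hb.1, h, hb.2⟩
  · exact Or.inr ⟨hb.1, h, hb.2⟩

theorem FF_ge (a : Fin k → ℕ) (T : Finset ℕ) :
    ((∑ b ∈ Om a, RT a T b : ℕ) : ℝ) -
      (((∑ b ∈ Om a, RT a T b ^ 2 : ℕ) : ℝ) - ((∑ b ∈ Om a, RT a T b : ℕ) : ℝ)) / 2 ≤
      (FF a T : ℝ) + NI a T := by
  have h1 : ((∑ b ∈ Om a, RT a T b : ℕ) : ℝ) -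
      (((∑ b ∈ Om a, RT a T b ^ 2 : ℕ) : ℝ) - ((∑ b ∈ Om a, RT a T b : ℕ) : ℝ)) / 2 ≤
      (#((Om a).filter (fun b => 0 < RT a T b)) : ℝ) := by
    rw [card_filter]
    push_cast
    rw [← sum_sub_distrib, sum_div, ← sum_sub_distrib]
    apply sum_le_sum
    intro b _
    rcases Nat.lt_or_ge 1 (RT a T b) with h | h
    · rw [if_pos (by omega)]
      have h2 : (2 : ℝ) ≤ RT a T b := by exact_mod_cast h
      nlinarith [mul_nonneg (sub_nonneg.2 h2) (sub_nonneg.2 (show (1 : ℝ) ≤ RT a T b by linarith))]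
    · interval_cases h3 : RT a T b
      · simp
      · simp
  refine h1.trans ?_
  exact_mod_cast card_pos_eq a T

theorem cont_aux (k : ℕ) (ε : ℝ) (hε : 0 < ε) : ∃ e : ℝ, 0 < e ∧ e ≤ 1 / 2 ∧ (1 + e) ^ k ≤ 1 + ε ∧
    1 - ε ≤ (1 - e) ^ k := by
  have h1 : Filter.Tendsto (fun e : ℝ => (1 + e) ^ k) (nhds 0) (nhds 1) := by
    have : Continuous (fun e : ℝ => (1 + e) ^ k) := by fun_prop
    simpa using this.tendsto 0
  have h2 : Filter.Tendsto (fun e : ℝ => (1 - e) ^ k) (nhds 0) (nhds 1) := by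
    have : Continuous (fun e : ℝ => (1 - e) ^ k) := by fun_prop
    simpa using this.tendsto 0
  have h3 := (h1.eventually (gt_mem_nhds (show (1 : ℝ) < 1 + ε by linarith))).and
    (h2.eventually (lt_mem_nhds (show 1 - ε < (1 : ℝ) by linarith)))
  obtain ⟨r, hr, h⟩ := Metric.eventually_nhds_iff.1 h3
  have hm : 0 < min (r / 2) (1 / 2) := by positivity
  have h4 := h (y := min (r / 2) (1 / 2)) (by
    rw [Real.dist_eq, sub_zero, abs_of_pos hm]
    exact lt_of_le_of_lt (min_le_left _ _) (by linarith))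
  exact ⟨min (r / 2) (1 / 2), hm, min_le_right _ _, h4.1.le, h4.2.le⟩

theorem log_aux (K : ℝ) (δ : ℝ) (hδ : δ < 1) : ∃ a₀ : ℕ, ∀ a : ℕ, a₀ ≤ a →
    K * (a : ℝ) ^ δ * Real.log a ≤ a := by
  have h1 := isLittleO_log_rpow_atTop (r := 1 - δ) (by linarith)
  have h2 := h1.bound (show (0 : ℝ) < 1 / (|K| + 1) by positivity)
  have h3 : ∀ᶠ x : ℝ in Filter.atTop, K * x ^ δ * Real.log x ≤ x := by
    filter_upwards [h2, Filter.eventually_ge_atTop 1] with x hx hx1
    have hx0 : 0 < x := by linarith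
    have hl : 0 ≤ Real.log x := Real.log_nonneg hx1
    have hx2 : 0 ≤ x ^ (1 - δ) := by positivity
    rw [Real.norm_eq_abs, Real.norm_eq_abs, abs_of_nonneg hl, abs_of_nonneg hx2] at hx
    have h4 : (|K| + 1) * Real.log x ≤ x ^ (1 - δ) := by
      calc (|K| + 1) * Real.log x ≤ (|K| + 1) * (1 / (|K| + 1) * x ^ (1 - δ)) := by gcongr
        _ = _ := by field_simp
    calc K * x ^ δ * Real.log x ≤ (|K| + 1) * x ^ δ * Real.log x := by
          have := le_abs_self K
          gcongr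
          linarith
      _ = x ^ δ * ((|K| + 1) * Real.log x) := by ring
      _ ≤ x ^ δ * x ^ (1 - δ) := by gcongr
      _ = x := by rw [← Real.rpow_add hx0]; simp
  exact ev_nat h3

/-- the total number of prime points -/
theorem sum_cast (a : Fin k → ℕ) (T : Finset ℕ) :
    ((∑ b ∈ Om a, RT a T b : ℕ) : ℝ) = ∑ n ∈ T, ∏ i, (PP (a i) n : ℝ) := by
  rw [sum_RT_PP]
  push_cast
  rfl

/-- **Short windows.** -/
theorem part1 (k B : ℕ) (ε : ℝ) (hε : 0 < ε) : ∃ δ : ℝ, 0 < δ ∧ ∃ a₀ : ℕ, ∀ a : Fin k → ℕ,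
    (∀ i, a₀ ≤ a i) → ∀ y x : ℕ, (∀ i, ((y + x : ℕ) : ℝ) ≤ Real.log (a i) ^ B) → (x : ℝ) ≤ δ * EE a →
    ∀ T ⊆ Ioc y (y + x), |(FF a T : ℝ) - #T * QQ a| ≤ ε * (#T * QQ a) := by
  obtain ⟨e, he, he2, he3, he4⟩ := cont_aux k (ε / 4) (by positivity)
  obtain ⟨a1, ha1, hasy⟩ := asymp B e he
  obtain ⟨C, hC, a2, ha2, hoff⟩ := off k
  set M : ℕ := ⌈k ^ 2 * (1 + ε / 4) * 4 / ε⌉₊ with hM
  obtain ⟨a3, ha3⟩ := log_aux (2 * M) 0 (by norm_num)
  refine ⟨ε / (2 * C), by positivity, max (max a1 a2) a3, ?_⟩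
  intro a ha y x hyx hx T hT
  have hA1 : ∀ i, a1 ≤ a i := fun i => ((le_max_left _ _).trans (le_max_left _ _)).trans (ha i)
  have hA2 : ∀ i, a2 ≤ a i := fun i => ((le_max_right _ _).trans (le_max_left _ _)).trans (ha i)
  have hA3 : ∀ i, a3 ≤ a i := fun i => (le_max_right _ _).trans (ha i)
  have h2 : ∀ i, 2 ≤ a i := fun i => ha2.trans (hA2 i)
  have har : ∀ i, (2 : ℝ) ≤ a i := fun i => by exact_mod_cast h2 i
  have hlog : ∀ i, 0 < Real.log (a i) := fun i => Real.log_pos (by linarith [har i])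
  have hQ0 := QQ_pos a h2
  have hE0 := EE_pos a h2
  have hT0 : (0 : ℝ) ≤ #T := Nat.cast_nonneg _
  -- each n
  have hPP : ∀ n ∈ T, ∀ i, |(PP (a i) n : ℝ) - a i / Real.log (a i)| ≤ e * (a i / Real.log (a i)) := by
    intro n hn i
    have hnI := mem_Ioc.1 (hT hn)
    apply hasy (a i) (hA1 i) n (by omega)
    refine le_trans ?_ (hyx i)
    exact_mod_cast hnI.2
  have hup : ∀ n ∈ T, ∏ i, (PP (a i) n : ℝ) ≤ (1 + ε / 4) * QQ a := by
    intro n hn
    calc ∏ i, (PP (a i) n : ℝ) ≤ ∏ i, ((1 + e) * ((a i : ℝ) / Real.log (a i))) := by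
          apply prod_le_prod (fun i _ => Nat.cast_nonneg _)
          intro i _
          have := (abs_le.1 (hPP n hn i)).2
          linarith
      _ = (1 + e) ^ k * QQ a := by
          rw [prod_mul_distrib]
          simp [QQ]
      _ ≤ _ := by gcongr
  have hlo : ∀ n ∈ T, (1 - ε / 4) * QQ a ≤ ∏ i, (PP (a i) n : ℝ) := by
    intro n hn
    calc (1 - ε / 4) * QQ a ≤ (1 - e) ^ k * QQ a := by gcongr
      _ = ∏ i, ((1 - e) * ((a i : ℝ) / Real.log (a i))) := by
          rw [prod_mul_distrib]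
          simp [QQ]
      _ ≤ _ := by
          apply prod_le_prod
          · intro i _
            have := hlog i
            have := har i
            have h1e : 0 ≤ 1 - e := by linarith
            positivity
          · intro i _
            have := (abs_le.1 (hPP n hn i)).1
            linarith
  have hS1 : ((∑ b ∈ Om a, RT a T b : ℕ) : ℝ) ≤ (1 + ε / 4) * (#T * QQ a) := by
    rw [sum_cast]
    calc _ ≤ ∑ n ∈ T, (1 + ε / 4) * QQ a := sum_le_sum hup
      _ = _ := by rw [sum_const, nsmul_eq_mul]; ring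
  have hS2 : (1 - ε / 4) * (#T * QQ a) ≤ ((∑ b ∈ Om a, RT a T b : ℕ) : ℝ) := by
    rw [sum_cast]
    calc _ = ∑ n ∈ T, (1 - ε / 4) * QQ a := by rw [sum_const, nsmul_eq_mul]; ring
      _ ≤ _ := sum_le_sum hlo
  -- off-diagonal
  have hO := (hoff a hA2 y x T hT).2
  rw [WE a h2] at hO
  have hO2 : C * ((#T : ℝ) * x * (QQ a / EE a)) ≤ ε / 2 * (#T * QQ a) := by
    calc C * ((#T : ℝ) * x * (QQ a / EE a)) ≤ C * ((#T : ℝ) * (ε / (2 * C) * EE a) * (QQ a / EE a)) := by
          gcongr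
      _ = _ := by field_simp
  -- equal forms
  have hMP : ∀ i, ∀ n ∈ T, M ≤ PP (a i) n := by
    intro i n hn
    have h3 := (abs_le.1 (hPP n hn i)).1
    have h4 := ha3 (a i) (hA3 i)
    rw [Real.rpow_zero, mul_one] at h4
    have h5 : (M : ℝ) ≤ 1 / 2 * (a i / Real.log (a i)) := by
      rw [← mul_div_assoc, le_div_iff₀ (hlog i)]
      linarith
    have hpos : 0 < (a i : ℝ) / Real.log (a i) := by
      have := hlog i
      have := har i
      positivity
    have h6 : (M : ℝ) ≤ PP (a i) n := by nlinarith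
    exact_mod_cast h6
  have hNI := noninj2 a T M hMP
  have hNI2 : (NI a T : ℝ) ≤ ε / 4 * (#T * QQ a) := by
    have h3 : (NI a T : ℝ) * M ≤ (k : ℝ) ^ 2 * ((∑ b ∈ Om a, RT a T b : ℕ) : ℝ) := by
      unfold NI
      exact_mod_cast hNI
    have h4 : (k : ℝ) ^ 2 * (1 + ε / 4) ≤ ε / 4 * M := by
      have h5 : (k : ℝ) ^ 2 * (1 + ε / 4) * 4 / ε ≤ M := Nat.le_ceil _
      rw [div_le_iff₀ hε] at h5
      linarith
    rcases Nat.eq_zero_or_pos k with hk | hk
    · have : NI a T = 0 := by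
        unfold NI
        rw [card_eq_zero, filter_eq_empty_iff]
        intro b _ hb
        apply hb.1
        intro i
        exact absurd i.2 (by omega)
      rw [this]
      simp only [Nat.cast_zero]
      positivity
    · have hk0 : (0 : ℝ) < (k : ℝ) ^ 2 := by
        have : (0 : ℝ) < k := by exact_mod_cast hk
        positivity
      have hM0 : (0 : ℝ) < M := by
        have h6 : 0 < (k : ℝ) ^ 2 * (1 + ε / 4) := by positivity
        have h7 : 0 < ε / 4 * (M : ℝ) := by linarith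
        exact (mul_pos_iff_of_pos_left (by positivity)).1 h7
      have h8 : (NI a T : ℝ) * M ≤ ε / 4 * (#T * QQ a) * M := by
        calc (NI a T : ℝ) * M ≤ (k : ℝ) ^ 2 * ((∑ b ∈ Om a, RT a T b : ℕ) : ℝ) := h3
          _ ≤ (k : ℝ) ^ 2 * ((1 + ε / 4) * (#T * QQ a)) := by gcongr
          _ = (k : ℝ) ^ 2 * (1 + ε / 4) * (#T * QQ a) := by ring
          _ ≤ ε / 4 * M * (#T * QQ a) := by gcongr
          _ = _ := by ring
      exact le_of_mul_le_mul_right h8 hM0
  have hge := FF_ge a T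
  have hle : (FF a T : ℝ) ≤ ((∑ b ∈ Om a, RT a T b : ℕ) : ℝ) := by exact_mod_cast FF_le a T
  have hTQ : 0 ≤ (#T : ℝ) * QQ a := by positivity
  rw [abs_le]
  constructor
  · nlinarith
  · nlinarith

/-- **All ranges.** -/
theorem part2 : ∃ δ : ℝ, 0 < δ ∧ δ < 1 ∧ ∀ k : ℕ, ∃ c C : ℝ, 0 < c ∧ 0 < C ∧ ∃ a₀ : ℕ,
    ∀ a : Fin k → ℕ, (∀ i, a₀ ≤ a i) → ∀ y x : ℕ, (∀ i, ((y + x : ℕ) : ℝ) ≤ (a i : ℝ) ^ δ) →
    ∀ T ⊆ Ioc y (y + x), c * (#T * QQ a) ≤ (1 + x / EE a) * FF a T ∧ FF a T ≤ C * (#T * QQ a) := by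
  obtain ⟨δ, η, hδ, hδ1, hη, a1, ha1, hfirst⟩ := first
  refine ⟨δ, hδ, hδ1, fun k => ?_⟩
  obtain ⟨C5, hC5, a2, ha2, hoff⟩ := off k
  set C' : ℝ := C5 ^ k + C5 with hC'
  have hC'0 : 0 < C' := by positivity
  set K0 : ℝ := 8 * C' * k ^ 2 * C5 ^ k / η ^ (2 * k) + 1 with hK0
  have hK00 : 0 < K0 := by positivity
  obtain ⟨a3, ha3⟩ := log_aux (K0 * (1 + 2 ^ k) / η) δ hδ1
  refine ⟨η ^ (2 * k) / (8 * C'), C5 ^ k, by positivity, by positivity, max (max a1 a2) (max a3 10), ?_⟩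
  intro a ha y x hyx T hT
  have hA1 : ∀ i, a1 ≤ a i := fun i => ((le_max_left _ _).trans (le_max_left _ _)).trans (ha i)
  have hA2 : ∀ i, a2 ≤ a i := fun i => ((le_max_right _ _).trans (le_max_left _ _)).trans (ha i)
  have hA3 : ∀ i, a3 ≤ a i := fun i => ((le_max_left _ _).trans (le_max_right _ _)).trans (ha i)
  have hA4 : ∀ i, 10 ≤ a i := fun i => ((le_max_right _ _).trans (le_max_right _ _)).trans (ha i)
  have h2 : ∀ i, 2 ≤ a i := fun i => ha2.trans (hA2 i)
  have har : ∀ i, (10 : ℝ) ≤ a i := fun i => by exact_mod_cast hA4 i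
  have hlog : ∀ i, 0 < Real.log (a i) := fun i => Real.log_pos (by linarith [har i])
  have hQ0 := QQ_pos a h2
  have hE0 := EE_pos a h2
  have hT0 : (0 : ℝ) ≤ #T := Nat.cast_nonneg _
  have hx0 : (0 : ℝ) ≤ x := Nat.cast_nonneg _
  obtain ⟨hsing, hO⟩ := hoff a hA2 y x T hT
  rw [WE a h2] at hO
  have hPlo : ∀ n ∈ T, ∀ i, η * (a i / Real.log (a i)) ≤ (PP (a i) n : ℝ) := by
    intro n hn i
    have hnI := mem_Ioc.1 (hT hn)
    apply hfirst (a i) (hA1 i) n (by omega)
    refine le_trans ?_ (hyx i)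
    exact_mod_cast hnI.2
  have hS1 : ((∑ b ∈ Om a, RT a T b : ℕ) : ℝ) ≤ C5 ^ k * (#T * QQ a) := by
    rw [sum_cast]
    calc _ ≤ ∑ n ∈ T, C5 ^ k * QQ a := by
          apply sum_le_sum
          intro n _
          calc ∏ i, (PP (a i) n : ℝ) ≤ ∏ i, (C5 * ((a i : ℝ) / Real.log (a i))) :=
                prod_le_prod (fun i _ => Nat.cast_nonneg _) (fun i _ => hsing n i)
            _ = _ := by rw [prod_mul_distrib]; simp [QQ]
      _ = _ := by rw [sum_const, nsmul_eq_mul]; ring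
  have hS2 : #T * (η ^ k * QQ a) ≤ ((∑ b ∈ Om a, RT a T b : ℕ) : ℝ) := by
    rw [sum_cast]
    calc _ = ∑ n ∈ T, η ^ k * QQ a := by rw [sum_const, nsmul_eq_mul]
      _ ≤ _ := by
          apply sum_le_sum
          intro n hn
          calc η ^ k * QQ a = ∏ i, (η * ((a i : ℝ) / Real.log (a i))) := by
                rw [prod_mul_distrib]; simp [QQ]
            _ ≤ _ := by
                apply prod_le_prod
                · intro i _
                  have := hlog i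
                  have := har i
                  positivity
                · intro i _
                  exact hPlo n hn i
  have hle : (FF a T : ℝ) ≤ ((∑ b ∈ Om a, RT a T b : ℕ) : ℝ) := by exact_mod_cast FF_le a T
  refine ⟨?_, hle.trans hS1⟩
  rcases Nat.eq_zero_or_pos #T with hTz | hTp
  · rw [hTz]
    simp only [Nat.cast_zero, zero_mul, mul_zero]
    positivity
  have hTp' : (0 : ℝ) < #T := by exact_mod_cast hTp
  set u : ℝ := 1 + x / EE a with hu
  have hu1 : 1 ≤ u := by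
    have : 0 ≤ (x : ℝ) / EE a := by positivity
    linarith
  have hu0 : 0 < u := by linarith
  -- second moment
  have hS3 : ((∑ b ∈ Om a, RT a T b ^ 2 : ℕ) : ℝ) ≤ C' * (#T * QQ a) * u := by
    have e1 : C5 * ((#T : ℝ) * x * (QQ a / EE a)) = C5 * (#T * QQ a) * (x / EE a) := by ring
    rw [e1] at hO
    have hTQ : 0 ≤ (#T : ℝ) * QQ a := by positivity
    have hxE : 0 ≤ (x : ℝ) / EE a := by positivity
    have h3 : C' * (#T * QQ a) * u = C5 ^ k * (#T * QQ a) + C5 ^ k * (#T * QQ a) * (x / EE a) +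
        C5 * (#T * QQ a) + C5 * (#T * QQ a) * (x / EE a) := by rw [hu, hC']; ring
    rw [h3]
    have h4 : 0 ≤ C5 ^ k * (#T * QQ a) * (x / EE a) := by positivity
    have h5 : 0 ≤ C5 * (#T * QQ a) := by positivity
    linarith
  have hΩpos : 0 < #(Om a) := by
    have h3 : (#(Om a) : ℝ) = ∏ i, ((a i).totient : ℝ) := card_Om a h2
    have h4 : (0 : ℝ) < #(Om a) := by
      rw [h3, ← QE a h2]
      positivity
    exact_mod_cast h4
  have hmain := count_large (Om a) (fun b => (RT a T b : ℝ)) (#T * (η ^ k * QQ a))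
    (C' * (#T * QQ a) * u) (by exact_mod_cast hS2) (by exact_mod_cast hS3) (by positivity)
    (by positivity) hΩpos
  have hcard : (#((Om a).filter (fun b => (#T : ℝ) * (η ^ k * QQ a) / (2 * #(Om a)) ≤ (RT a T b : ℝ))) : ℝ) ≤
      (FF a T : ℝ) + NI a T := by
    have h3 : #((Om a).filter (fun b => (#T : ℝ) * (η ^ k * QQ a) / (2 * #(Om a)) ≤ (RT a T b : ℝ))) ≤
        #((Om a).filter (fun b => 0 < RT a T b)) := by
      apply card_le_card
      intro b hb
      rw [mem_filter] at hb ⊢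
      refine ⟨hb.1, ?_⟩
      have h4 : (0 : ℝ) < RT a T b := by
        refine lt_of_lt_of_le ?_ hb.2
        have : (0 : ℝ) < #(Om a) := by exact_mod_cast hΩpos
        positivity
      exact_mod_cast h4
    exact_mod_cast h3.trans (card_pos_eq a T)
  have e5 : ((#T : ℝ) * (η ^ k * QQ a)) ^ 2 / (4 * (C' * (#T * QQ a) * u)) =
      η ^ (2 * k) / (4 * C') * (#T * QQ a) / u := by
    rw [pow_mul']
    field_simp
  rw [e5] at hmain
  -- equal forms
  have hMP : ∀ i, ∀ n ∈ T, ⌈K0 * u⌉₊ ≤ PP (a i) n := by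
    intro i n hn
    rw [Nat.ceil_le]
    refine le_trans ?_ (hPlo n hn i)
    have h3 := ha3 (a i) (hA3 i)
    have h4 : u ≤ (1 + 2 ^ k) * (a i : ℝ) ^ δ := by
      have h5 : (1 : ℝ) ≤ (a i : ℝ) ^ δ := Real.one_le_rpow (by linarith [har i]) hδ.le
      have h6 : (x : ℝ) ≤ (a i : ℝ) ^ δ := by
        refine le_trans ?_ (hyx i)
        exact_mod_cast Nat.le_add_left x y
      have h7 : (x : ℝ) / EE a ≤ 2 ^ k * (a i : ℝ) ^ δ := by
        rw [div_le_iff₀ hE0]
        have h8 := EE_ge a hA4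
        calc (x : ℝ) ≤ (a i : ℝ) ^ δ := h6
          _ = 2 ^ k * (a i : ℝ) ^ δ * (1 / 2) ^ k := by
              rw [one_div, inv_pow]
              field_simp
          _ ≤ _ := by gcongr
      rw [hu]
      nlinarith
    rw [← mul_div_assoc, le_div_iff₀ (hlog i)]
    calc K0 * u * Real.log (a i) ≤ K0 * ((1 + 2 ^ k) * (a i : ℝ) ^ δ) * Real.log (a i) := by
          have := (hlog i).le
          gcongr
      _ = η * (K0 * (1 + 2 ^ k) / η * (a i : ℝ) ^ δ * Real.log (a i)) := by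
          field_simp
      _ ≤ η * a i := by gcongr
  have hNI := noninj2 a T _ hMP
  have hNI2 : (NI a T : ℝ) * u ≤ η ^ (2 * k) / (8 * C') * (#T * QQ a) := by
    have h3 : (NI a T : ℝ) * (⌈K0 * u⌉₊ : ℝ) ≤ (k : ℝ) ^ 2 * ((∑ b ∈ Om a, RT a T b : ℕ) : ℝ) := by
      unfold NI
      exact_mod_cast hNI
    have h4 : (NI a T : ℝ) * (K0 * u) ≤ (k : ℝ) ^ 2 * (C5 ^ k * (#T * QQ a)) := by
      calc (NI a T : ℝ) * (K0 * u) ≤ (NI a T : ℝ) * (⌈K0 * u⌉₊ : ℝ) := by
            have := Nat.le_ceil (K0 * u)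
            gcongr
        _ ≤ _ := h3
        _ ≤ _ := by gcongr
    have h5 : (k : ℝ) ^ 2 * (C5 ^ k * (#T * QQ a)) ≤ K0 * (η ^ (2 * k) / (8 * C') * (#T * QQ a)) := by
      have h6 : K0 * (η ^ (2 * k) / (8 * C') * (#T * QQ a)) =
          (k : ℝ) ^ 2 * (C5 ^ k * (#T * QQ a)) + η ^ (2 * k) / (8 * C') * (#T * QQ a) := by
        rw [hK0]
        field_simp
      rw [h6]
      have : 0 ≤ η ^ (2 * k) / (8 * C') * (#T * QQ a) := by positivity
      linarith
    have h7 : K0 * ((NI a T : ℝ) * u) ≤ K0 * (η ^ (2 * k) / (8 * C') * (#T * QQ a)) := by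
      calc K0 * ((NI a T : ℝ) * u) = (NI a T : ℝ) * (K0 * u) := by ring
        _ ≤ _ := h4.trans h5
    exact le_of_mul_le_mul_left h7 hK00
  have h8 := hmain.trans hcard
  rw [div_le_iff₀ hu0] at h8
  have h9 : η ^ (2 * k) / (4 * C') * (#T * QQ a) = 2 * (η ^ (2 * k) / (8 * C') * (#T * QQ a)) := by
    field_simp
    ring
  rw [h9] at h8
  nlinarith

end Pool.Agent.J6H28.UT
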