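import Pool.Agent.J6H28.UT.Base

set_option autoImplicit false
set_option maxHeartbeats 4000000

/-! # Off-diagonal terms, equal forms, admissibility -/

namespace Pool.Agent.J6H28.UT

open Finset Pool.Agent.H262R2.UK TH415.UL
open Pool.Agent.H646 Pool.Agent.H646.Sv3M Pool.Agent.H646.TuplesM
open Pool.Agent.H646.MomentM (rat_moment)

open scoped Classical

variable {k : ℕ}

theorem sum_RT_PP (a : Fin k → ℕ) (T : Finset ℕ) : ∑ b ∈ Om a, RT a T b = ∑ n ∈ T, ∏ i, PP (a i) n :=
  sum_RT a T

/-- the second moment, with the exact diagonal term -/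
theorem off (k : ℕ) : ∃ C : ℝ, 0 < C ∧ ∃ a₀ : ℕ, 2 ≤ a₀ ∧ ∀ a : Fin k → ℕ, (∀ i, a₀ ≤ a i) →
    ∀ y x : ℕ, ∀ T ⊆ Ioc y (y + x),
    (∀ n : ℕ, ∀ i, (PP (a i) n : ℝ) ≤ C * (a i / Real.log (a i))) ∧
    ((∑ b ∈ Om a, RT a T b ^ 2 : ℕ) : ℝ) ≤ ((∑ b ∈ Om a, RT a T b : ℕ) : ℝ) +
      C * ((#T : ℝ) * x * ∏ i, ((a i : ℝ) / Real.log (a i) * (a i / ((a i).totient * Real.log (a i))))) := by
  obtain ⟨C1, hC1, x1, hbt⟩ := bt
  obtain ⟨C2, hC2, x2, hpb⟩ := pair_bound
  obtain ⟨C4, hC4, hmom⟩ := rat_moment k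
  refine ⟨C1 + 2 * C4 * C2 ^ k, by positivity, max (max x1 x2) 2, le_max_right _ _, ?_⟩
  intro a ha y x T hT
  have hax1 : ∀ i, x1 ≤ a i := fun i => ((le_max_left _ _).trans (le_max_left _ _)).trans (ha i)
  have hax2 : ∀ i, x2 ≤ a i := fun i => ((le_max_right _ _).trans (le_max_left _ _)).trans (ha i)
  have ha2 : ∀ i, 2 ≤ a i := fun i => (le_max_right _ _).trans (ha i)
  have har : ∀ i, (2 : ℝ) ≤ a i := fun i => by exact_mod_cast ha2 i
  have hlog : ∀ i, 0 < Real.log (a i) := fun i => Real.log_pos (by linarith [har i])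
  have hφ : ∀ i, (0 : ℝ) < (a i).totient := fun i => by
    exact_mod_cast Nat.totient_pos.2 (by have := ha2 i; omega)
  set q : Fin k → ℝ := fun i => (a i : ℝ) / Real.log (a i) with hq
  have hq0 : ∀ i, 0 < q i := fun i => div_pos (by linarith [har i]) (hlog i)
  set w : Fin k → ℝ := fun i => q i * (a i / ((a i).totient * Real.log (a i))) with hw
  have hw0 : ∀ i, 0 < w i := fun i =>
    mul_pos (hq0 i) (div_pos (by linarith [har i]) (mul_pos (hφ i) (hlog i)))
  have hBsub : ∀ i, ∀ Q : ℕ → Prop, ∀ [DecidablePred Q],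
      #((BB (a i)).filter Q) ≤ #((Icc 1 (a i)).filter Q) := by
    intro i Q _
    apply Finset.card_le_card
    apply Finset.filter_subset_filter
    intro x hx
    unfold BB at hx
    rw [Finset.mem_filter, Finset.mem_Ico] at hx
    rw [Finset.mem_Icc]
    omega
  have hsingle : ∀ i, ∀ n : ℕ, (PP (a i) n : ℝ) ≤ C1 * q i := by
    intro i n
    have h1 : PP (a i) n ≤ #((Icc 1 (a i)).filter (fun x => (x + a i * n).Prime)) := by
      refine (hBsub i _).trans (le_of_eq ?_)
      congr 1
      apply Finset.filter_congr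
      intro x _
      rw [add_comm]
    have h2 := hbt (a i) (hax1 i) (a i * n)
    calc (PP (a i) n : ℝ) ≤ _ := by exact_mod_cast h1
      _ ≤ _ := h2
      _ = C1 * q i := by rw [hq]; ring
  have hoff : ∀ i, ∀ n m : ℕ, n < m →
      (#((BB (a i)).filter (fun x => (a i * n + x).Prime ∧ (a i * m + x).Prime)) : ℝ) ≤
      C2 * w i * rat (m - n) := by
    intro i n m hnm
    have ha1 : 0 < a i := by have := ha2 i; omega
    have h1 : #((BB (a i)).filter (fun x => (a i * n + x).Prime ∧ (a i * m + x).Prime)) ≤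
        #((Icc 1 (a i)).filter (fun x => (x + a i * n).Prime ∧ (x + a i * m).Prime)) := by
      refine (hBsub i _).trans (le_of_eq ?_)
      congr 1
      apply Finset.filter_congr
      intro x _
      rw [add_comm (a i * n), add_comm (a i * m)]
    have h2 := hpb (a i) (hax2 i) (a i * n) (a i * m) (Nat.mul_lt_mul_of_pos_left hnm ha1)
    have h3 : a i * m - a i * n = a i * (m - n) := by rw [Nat.mul_sub]
    rw [h3] at h2
    have h4 := rat_mul_le (m := a i) (n := m - n) (by omega) (by omega)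
    have hl := hlog i
    have hf := hφ i
    have hr := har i
    calc (#((BB (a i)).filter (fun x => (a i * n + x).Prime ∧ (a i * m + x).Prime)) : ℝ) ≤ _ := by
          exact_mod_cast h1
      _ ≤ _ := h2
      _ ≤ C2 * a i / Real.log (a i) ^ 2 * (rat (a i) * rat (m - n)) := by
          apply mul_le_mul_of_nonneg_left h4 (by positivity)
      _ = C2 * w i * rat (m - n) := by
          rw [hw, hq]
          unfold rat
          field_simp
  have hsym : ∀ n m : ℕ, ∏ i, (#((BB (a i)).filter (fun x => (a i * n + x).Prime ∧ (a i * m + x).Prime)) : ℝ) =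
      ∏ i, (#((BB (a i)).filter (fun x => (a i * m + x).Prime ∧ (a i * n + x).Prime)) : ℝ) := by
    intro n m
    apply prod_congr rfl
    intro i _
    congr 2
    apply Finset.filter_congr
    intro x _
    exact and_comm
  have hprodoff : ∀ n m : ℕ, n < m →
      ∏ i, (#((BB (a i)).filter (fun x => (a i * n + x).Prime ∧ (a i * m + x).Prime)) : ℝ) ≤
      C2 ^ k * (∏ i, w i) * rat (m - n) ^ k := by
    intro n m hnm
    calc _ ≤ ∏ i, (C2 * w i * rat (m - n)) :=
          prod_le_prod (fun i _ => Nat.cast_nonneg _) (fun i _ => hoff i n m hnm)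
      _ = _ := by
          rw [prod_mul_distrib, prod_mul_distrib]
          simp
  have hprodw : 0 ≤ ∏ i, w i := prod_nonneg fun i _ => (hw0 i).le
  constructor
  · intro n i
    refine (hsingle i n).trans ?_
    have h1 : 0 ≤ 2 * C4 * C2 ^ k := by positivity
    have h2 := (hq0 i).le
    show C1 * q i ≤ (C1 + 2 * C4 * C2 ^ k) * q i
    nlinarith
  rw [sum_RT_sq, sum_RT_PP]
  push_cast
  have hrow : ∀ n ∈ T, ∑ m ∈ T,
      ∏ i, (#((BB (a i)).filter (fun x => (a i * n + x).Prime ∧ (a i * m + x).Prime)) : ℝ) ≤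
      (∏ i, (PP (a i) n : ℝ)) + 2 * (C2 ^ k * (∏ i, w i) * (C4 * x)) := by
    intro n hn
    have h1 := pair_sumT (fun m => C2 ^ k * (∏ i, w i) * rat m ^ k) (fun m => by
        have := rat_nonneg m
        positivity) y x n T hT hn
      (fun m => ∏ i, (#((BB (a i)).filter (fun x => (a i * n + x).Prime ∧ (a i * m + x).Prime)) : ℝ))
      (∏ i, (PP (a i) n : ℝ))
      (by
        apply le_of_eq
        apply prod_congr rfl
        intro i _
        unfold PP
        simp only [and_self])
      (fun m _ hnm => hprodoff n m hnm)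
      (fun m _ hnm => by
        rw [hsym n m]
        exact hprodoff m n hnm)
    refine h1.trans ?_
    rw [← Finset.mul_sum]
    have h2 : C2 ^ k * (∏ i, w i) * ∑ m ∈ Icc 1 x, rat m ^ k ≤ C2 ^ k * (∏ i, w i) * (C4 * x) :=
      mul_le_mul_of_nonneg_left (hmom x) (by positivity)
    linarith
  refine (Finset.sum_le_sum hrow).trans ?_
  rw [Finset.sum_add_distrib, Finset.sum_const, nsmul_eq_mul]
  have hT0 : (0 : ℝ) ≤ #T := Nat.cast_nonneg _
  have hx0 : (0 : ℝ) ≤ x := Nat.cast_nonneg _
  have e1 : (#T : ℝ) * (2 * (C2 ^ k * (∏ i, w i) * (C4 * x))) =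
      2 * C4 * C2 ^ k * (#T * x * ∏ i, w i) := by ring
  rw [e1]
  have h6 : 0 ≤ (#T : ℝ) * x * ∏ i, w i := by positivity
  have h9 := hC1.le
  have h10 := mul_nonneg h9 h6
  show _ ≤ _ + (C1 + 2 * C4 * C2 ^ k) * (#T * x * ∏ i, w i)
  nlinarith

/-- few of the counted vectors have two equal forms -/
theorem noninj2 (a : Fin k → ℕ) (T : Finset ℕ) (M : ℕ) (hM : ∀ i, ∀ n ∈ T, M ≤ PP (a i) n) :
    #((Om a).filter (fun b => ¬ Function.Injective (fun i => (a i, b i)) ∧ 0 < RT a T b)) * M ≤
      k ^ 2 * ∑ b ∈ Om a, RT a T b := by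
  set A : ℕ → Finset (Fin k → ℕ) := fun n => (Om a).filter (fun b => ∀ i, (a i * n + b i).Prime) with hA
  have hAc : ∀ n, #(A n) = ∏ i, PP (a i) n := by
    intro n
    simp only [hA]
    exact card_boxU a (fun i x => (a i * n + x).Prime)
  have hsub : (Om a).filter (fun b => ¬ Function.Injective (fun i => (a i, b i)) ∧ 0 < RT a T b) ⊆
      T.biUnion (fun n => ((univ : Finset (Fin k × Fin k)).filter (fun q => q.1 ≠ q.2)).biUnion
        (fun q => (A n).filter (fun b => a q.1 = a q.2 ∧ b q.1 = b q.2))) := by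
    intro b hb
    rw [Finset.mem_filter] at hb
    obtain ⟨hb1, hb2, hb3⟩ := hb
    unfold Function.Injective at hb2
    push Not at hb2
    obtain ⟨i, j, hij, hne⟩ := hb2
    unfold RT at hb3
    obtain ⟨n, hn⟩ := card_pos.1 hb3
    rw [mem_filter] at hn
    rw [mem_biUnion]
    refine ⟨n, hn.1, ?_⟩
    rw [Finset.mem_biUnion]
    refine ⟨(i, j), ?_, ?_⟩
    · rw [Finset.mem_filter]; exact ⟨Finset.mem_univ _, hne⟩
    · rw [Finset.mem_filter]
      exact ⟨by rw [hA, mem_filter]; exact ⟨hb1, hn.2⟩, (Prod.ext_iff.1 hij).1, (Prod.ext_iff.1 hij).2⟩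
  have hone : ∀ n ∈ T, ∀ q ∈ (univ : Finset (Fin k × Fin k)).filter (fun q => q.1 ≠ q.2),
      #((A n).filter (fun b => a q.1 = a q.2 ∧ b q.1 = b q.2)) * M ≤ #(A n) := by
    intro n hn q hq
    rw [Finset.mem_filter] at hq
    refine (Nat.mul_le_mul_left _ (hM q.1 n hn)).trans ?_
    unfold PP
    rw [← Finset.card_product]
    apply Finset.card_le_card_of_injOn (fun u => Function.update u.1 q.1 u.2)
    · rintro ⟨b, c⟩ hb
      rw [Finset.mem_coe, Finset.mem_product, Finset.mem_filter, hA, mem_filter, Om,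
        Fintype.mem_piFinset, mem_filter] at hb
      rw [Finset.mem_coe, hA, mem_filter, Om, Fintype.mem_piFinset]
      constructor
      · intro j
        by_cases hj : j = q.1
        · subst hj; simpa using hb.2.1
        · simp only [Function.update_of_ne hj]
          exact hb.1.1.1 j
      · intro j
        by_cases hj : j = q.1
        · subst hj; simpa using hb.2.2
        · simp only [Function.update_of_ne hj]
          exact hb.1.1.2 j
    · rintro ⟨b, c⟩ hb ⟨b', c'⟩ hb' h
      rw [Finset.mem_coe, Finset.mem_product, Finset.mem_filter] at hb hb'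
      have h' : Function.update b q.1 c = Function.update b' q.1 c' := h
      have hc : c = c' := by
        have := congrFun h' q.1
        simpa using this
      have h2 : ∀ j, j ≠ q.1 → b j = b' j := by
        intro j hj
        have := congrFun h' j
        rwa [Function.update_of_ne hj, Function.update_of_ne hj] at this
      have hbb : b = b' := by
        funext j
        by_cases hj : j = q.1
        · have e1 : b q.1 = b q.2 := hb.1.2.2
          have e2 : b' q.1 = b' q.2 := hb'.1.2.2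
          rw [hj, e1, e2]
          exact h2 q.2 (Ne.symm hq.2)
        · exact h2 j hj
      rw [hbb, hc]
  calc _ ≤ (∑ n ∈ T, ∑ q ∈ (univ : Finset (Fin k × Fin k)).filter (fun q => q.1 ≠ q.2),
        #((A n).filter (fun b => a q.1 = a q.2 ∧ b q.1 = b q.2))) * M := by
        apply Nat.mul_le_mul_right
        refine (card_le_card hsub).trans (card_biUnion_le.trans ?_)
        exact sum_le_sum fun n _ => card_biUnion_le
    _ = ∑ n ∈ T, ∑ q ∈ (univ : Finset (Fin k × Fin k)).filter (fun q => q.1 ≠ q.2),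
        #((A n).filter (fun b => a q.1 = a q.2 ∧ b q.1 = b q.2)) * M := by
        rw [sum_mul]
        exact sum_congr rfl fun n _ => by rw [sum_mul]
    _ ≤ ∑ n ∈ T, ∑ q ∈ (univ : Finset (Fin k × Fin k)).filter (fun q => q.1 ≠ q.2), #(A n) :=
        sum_le_sum fun n hn => sum_le_sum (hone n hn)
    _ ≤ ∑ n ∈ T, k ^ 2 * #(A n) := by
        apply sum_le_sum
        intro n _
        rw [sum_const, smul_eq_mul]
        apply Nat.mul_le_mul_right
        refine (Finset.card_filter_le _ _).trans ?_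
        rw [Finset.card_univ, Fintype.card_prod, Fintype.card_fin, sq]
    _ = _ := by
        rw [← mul_sum, sum_RT_PP]
        congr 1
        exact sum_congr rfl fun n _ => hAc n

/-- one common positive prime point forces admissibility -/
theorem adm1 (a b : Fin k → ℕ) (n : ℕ) (hn : 1 ≤ n) (hk : ∀ i, k < a i) (hb : ∀ i, 1 ≤ b i)
    (hc : ∀ i, (a i).Coprime (b i)) (h : ∀ i, (a i * n + b i).Prime) (p : ℕ) (hp : p.Prime) :
    ∃ m : ℤ, ∀ i, ¬ (p : ℤ) ∣ a i * m + b i := by
  by_cases hex : ∃ i, p ∣ a i * n + b i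
  · obtain ⟨i₀, hi₀⟩ := hex
    have hpe := (Nat.prime_dvd_prime_iff_eq hp (h i₀)).1 hi₀
    have hpk : k < p := by
      have h1 := hk i₀
      have h2 : a i₀ ≤ a i₀ * n := Nat.le_mul_of_pos_right _ hn
      omega
    by_contra hcon
    push Not at hcon
    have hcon' : ∀ m : ℕ, ∃ i, p ∣ a i * m + b i := by
      intro m
      obtain ⟨i, hi⟩ := hcon (m : ℤ)
      exact ⟨i, by exact_mod_cast hi⟩
    choose f hf using hcon'
    obtain ⟨m, hm, m', hm', hne, heq⟩ := Finset.exists_ne_map_eq_of_card_lt_of_maps_to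
      (s := range p) (t := (univ : Finset (Fin k))) (f := f) (by
        rw [card_univ, Fintype.card_fin, card_range]; exact hpk) (fun _ _ => mem_coe.2 (mem_univ _))
    have key : ∀ m m' : ℕ, m < m' → m' < p → f m = f m' → False := by
      intro m m' hlt hlp he
      have h1 := hf m
      have h2 := hf m'
      rw [← he] at h2
      have h3 : p ∣ a (f m) * (m' - m) := by
        have h4 := Nat.dvd_sub h2 h1
        have h5 : a (f m) * m' + b (f m) - (a (f m) * m + b (f m)) = a (f m) * (m' - m) := by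
          rw [Nat.mul_sub]; omega
        rwa [h5] at h4
      rcases (Nat.Prime.dvd_mul hp).1 h3 with h4 | h4
      · have h5 : p ∣ b (f m) := (Nat.dvd_add_right (h4.mul_right m)).1 h1
        have h6 := Nat.dvd_gcd h4 h5
        rw [hc (f m)] at h6
        exact hp.one_lt.ne' (Nat.dvd_one.1 h6)
      · have := Nat.le_of_dvd (by omega) h4
        omega
    rw [mem_range] at hm hm'
    rcases Nat.lt_or_gt_of_ne hne with h1 | h1
    · exact key m m' h1 hm' heq
    · exact key m' m h1 hm heq.symm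
  · push Not at hex
    exact ⟨n, fun i hd => hex i (by exact_mod_cast hd)⟩

end Pool.Agent.J6H28.UT
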